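import Pool.Agent.Lib.MP_9afdc0_co.Join
import Pool.Agent.Lib.MP_9afdc0_co.Up

namespace Pool.Agent.Results.MP_9afdc0_co.ReductionToFour

open Pool.Agent.Lib.MP_9afdc0_co Filter Asymptotics

theorem aux (k : ℕ) : ∃ C N : ℕ, ∀ n, N ≤ n →
    exRainbow (k + 4) n ≤ C * (n ^ k * exRainbow 4 n) ∧
      n ^ k * exRainbow 4 n ≤ C * exRainbow (k + 4) n := by
  induction k with
  | zero => exact ⟨1, 0, fun n _ => by simp⟩
  | succ k ih =>
    obtain ⟨C, N, h⟩ := ih
    obtain ⟨A, hA⟩ : ∃ A, A = 2 ^ (k + 2 + 2 + (k + 2 + 2) * (k + 2 + 2)) := ⟨_, rfl⟩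
    obtain ⟨B, hB⟩ : ∃ B, B = 2 ^ (4 * (k + 4) + 1) := ⟨_, rfl⟩
    obtain ⟨D, hD⟩ : ∃ D, D = (k + 2) ^ 2 * (k + 2 + 1) ^ 3 := ⟨_, rfl⟩
    refine ⟨A * C + 64 * D + C * B, N + 4 * (k + 4), fun n hn => ?_⟩
    obtain ⟨h1, h2⟩ := h n (by omega)
    have h3 := up_step (n := n) (r := k + 2) (by omega)
    have h4 := join_step (n := n) (r := k + 4) (by omega) (by omega)
    have h5 := sq_le (n := n) (by omega)
    rw [← hA, mul_assoc (n ^ (k + 2)), ← hD] at h3
    rw [← hB] at h4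
    constructor
    · calc exRainbow (k + 1 + 4) n ≤ n * (A * exRainbow (k + 4) n + n ^ k * n ^ 2 * D) := by
            rw [← pow_add]; exact h3
        _ ≤ n * (A * (C * (n ^ k * exRainbow 4 n)) + n ^ k * (64 * exRainbow 4 n) * D) := by
            gcongr
        _ = (A * C + 64 * D) * (n ^ (k + 1) * exRainbow 4 n) := by ring
        _ ≤ _ := Nat.mul_le_mul_right _ (Nat.le_add_right _ _)
    · calc n ^ (k + 1) * exRainbow 4 n = n * (n ^ k * exRainbow 4 n) := by ring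
        _ ≤ n * (C * exRainbow (k + 4) n) := Nat.mul_le_mul_left _ h2
        _ = C * (n * exRainbow (k + 4) n) := by ring
        _ ≤ C * (B * exRainbow (k + 4 + 1) n) := Nat.mul_le_mul_left _ h4
        _ = C * B * exRainbow (k + 1 + 4) n := by rw [mul_assoc]
        _ ≤ _ := Nat.mul_le_mul_right _ (Nat.le_add_left _ _)

/-- The order of magnitude for every `r ≥ 4` is `n ^ (r - 4)` times the one for `r = 4`. -/
theorem result : ∀ r : ℕ, 4 ≤ r →
    (fun n : ℕ => (exRainbow r n : ℝ)) =Θ[atTop]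
      fun n : ℕ => (n : ℝ) ^ (r - 4) * (exRainbow 4 n : ℝ) := by
  intro r hr
  obtain ⟨k, rfl⟩ : ∃ k, r = k + 4 := ⟨r - 4, by omega⟩
  obtain ⟨C, N, h⟩ := aux k
  rw [Nat.add_sub_cancel]
  constructor
  · refine IsBigO.of_bound C (eventually_atTop.2 ⟨N, fun n hn => ?_⟩)
    rw [Real.norm_of_nonneg (by positivity), Real.norm_of_nonneg (by positivity)]
    exact_mod_cast (h n hn).1
  · refine IsBigO.of_bound C (eventually_atTop.2 ⟨N, fun n hn => ?_⟩)
    rw [Real.norm_of_nonneg (by positivity), Real.norm_of_nonneg (by positivity)]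
    exact_mod_cast (h n hn).2

end Pool.Agent.Results.MP_9afdc0_co.ReductionToFour
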