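import Pool.Agent.Lib.MP_9afdc0_co.RsF
import Pool.Agent.Results.MP_9afdc0_co.ReductionToFour

namespace Pool.Agent.Results.MP_9afdc0_co.BelowRuzsaSzemeredi

open Pool.Agent.Lib.MP_9afdc0_co Filter Asymptotics

/-- The number of cliques is of smaller order than `n ^ (r - 3)` times the Ruzsa-Szemeredi
number. -/
theorem result : ∀ r : ℕ, 4 ≤ r →
    (fun n : ℕ => (exRainbow r n : ℝ)) =o[atTop]
      fun n : ℕ => (n : ℝ) ^ (r - 3) * (ruzsaSzemerediNumberNat n : ℝ) := by
  intro r hr
  refine (ReductionToFour.result r hr).1.trans_isLittleO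
    (((isBigO_refl (fun n : ℕ => (n : ℝ) ^ (r - 4)) atTop).mul_isLittleO ex_four).congr_right
      fun n => ?_)
  rw [← mul_assoc, ← pow_succ, show r - 4 + 1 = r - 3 by omega]

end Pool.Agent.Results.MP_9afdc0_co.BelowRuzsaSzemeredi
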