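import Pool.Agent.Lib.MP_9afdc0_co.PlI
import Pool.Agent.Results.MP_9afdc0_co.ReductionToFour

namespace Pool.Agent.Results.MP_9afdc0_co.PolylogBound

open Pool.Agent.Lib.MP_9afdc0_co Filter Asymptotics

/-- An upper bound that saves a fixed power of `log n`. -/
theorem result : ∀ r : ℕ, 4 ≤ r →
    (fun n : ℕ => (exRainbow r n : ℝ)) =O[atTop]
      fun n : ℕ => (n : ℝ) ^ (r - 1) * Real.log n ^ (-(1 / 600000) : ℝ) := by
  intro r hr
  refine (ReductionToFour.result r hr).1.trans
    (((isBigO_refl (fun n : ℕ => (n : ℝ) ^ (r - 4)) atTop).mul ex_four_polylog).congr_right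
      fun n => ?_)
  rw [← mul_assoc, ← pow_add, show r - 4 + 3 = r - 1 by omega]

end Pool.Agent.Results.MP_9afdc0_co.PolylogBound
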